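import Mathlib
import Pool.Agent.R158.CubeEmb

/-!
# Undistorted Hamming cubes in dense sets: an exponential upper bound
-/

namespace Pool.Agent.Results.MP_c810be_co.ExponentialBound

/-- A map between Hamming cubes is undistorted when it multiplies all Hamming distances by one
real number `r > 0`. -/
def Undistorted {k N : ℕ} (f : (Fin k → Bool) → (Fin N → Bool)) : Prop :=
  ∃ r : ℝ, 0 < r ∧ ∀ x y, (hammingDist (f x) (f y) : ℝ) = r * (hammingDist x y : ℝ)

/-- Every subset of `{0,1}^N` with at least `δ 2^N` elements contains the image of `{0,1}^k`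
under some undistorted map. -/
def HasCubes (δ : ℝ) (k N : ℕ) : Prop :=
  ∀ D : Finset (Fin N → Bool), δ * 2 ^ N ≤ (D.card : ℝ) →
    ∃ f : (Fin k → Bool) → (Fin N → Bool), Undistorted f ∧ ∀ x, f x ∈ D

/-- `Emb(1, δ, k)`: the least `N` with the property above. -/
noncomputable def Emb (δ : ℝ) (k : ℕ) : ℕ := sInf {N | HasCubes δ k N}

open Pool.Agent.R158 Pool.Agent.R158.CubeEmb

lemma dist_pt {ι : Type*} [Fintype ι] [DecidableEq ι] {k r : ℕ} (a : ι → Bool)
    (B : Fin k → Finset ι) (hr : ∀ j, (B j).card = r)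
    (hd : ∀ i j, i ≠ j → Disjoint (B i) (B j)) (x y : Fin k → Bool) :
    hammingDist (pt a B x) (pt a B y) = r * hammingDist x y := by
  unfold hammingDist
  have h1 : (Finset.univ.filter fun i => pt a B x i ≠ pt a B y i)
      = (Finset.univ.filter fun j => x j ≠ y j).biUnion B := by
    ext i
    simp only [Finset.mem_filter, Finset.mem_univ, true_and, Finset.mem_biUnion]
    have huniq : ∀ j j', i ∈ B j → i ∈ B j' → j = j' := by
      intro j j' hj hj'
      by_contra hne
      exact Finset.disjoint_left.1 (hd j j' hne) hj hj'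
    by_cases hi : ∃ j, i ∈ B j
    · obtain ⟨j, hj⟩ := hi
      have e : ∀ z : Fin k → Bool, (∃ l, z l = true ∧ i ∈ B l) ↔ z j = true := by
        intro z
        constructor
        · rintro ⟨l, hl, hl'⟩
          rwa [huniq j l hj hl']
        · intro h; exact ⟨j, h, hj⟩
      have e2 : (∃ l, x l ≠ y l ∧ i ∈ B l) ↔ x j ≠ y j := by
        constructor
        · rintro ⟨l, hl, hl'⟩
          rwa [huniq j l hj hl']
        · intro h; exact ⟨j, h, hj⟩
      rw [e2]
      simp only [pt, e]
      cases a i <;> cases x j <;> cases y j <;> simp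
    · have e : ∀ z : Fin k → Bool, ¬ (∃ l, z l = true ∧ i ∈ B l) := by
        rintro z ⟨l, _, hl'⟩
        exact hi ⟨l, hl'⟩
      have e2 : ¬ (∃ l, x l ≠ y l ∧ i ∈ B l) := by
        rintro ⟨l, _, hl'⟩
        exact hi ⟨l, hl'⟩
      simp [pt, e, e2]
  rw [h1, Finset.card_biUnion]
  · rw [Finset.sum_congr rfl fun j _ => hr j, Finset.sum_const, smul_eq_mul, mul_comm]
  · intro i _ j _ hij
    exact hd i j hij

/-- the main estimate with explicit parameters -/
lemma hasCubes_of {δ : ℝ} (hδ : 0 < δ) (hδ2 : δ ≤ 2) {k r : ℕ} (hr : Even r) (hr0 : 0 < r)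
    (hrδ : (1 / 2 : ℝ) ^ r ≤ (δ / 2) ^ (2 ^ k)) : HasCubes δ k ((36 + k) * r) := by
  intro D hD
  obtain ⟨a, B, _, hBr, hBd, hpt⟩ := iterate (ι := Fin ((36 + k) * r)) hr hr0 k Finset.univ
    (by simp) D δ hδ hδ2 hrδ (by simpa using hD)
  refine ⟨pt a B, ⟨r, by exact_mod_cast hr0, fun x y => ?_⟩, hpt⟩
  rw [dist_pt a B hBr hBd]
  push_cast
  ring

/-- **`Emb(1, δ, k) ≤ e^{C k} log (1/δ)`.** -/
theorem result : ∃ C : ℝ, 0 < C ∧ ∀ (k : ℕ) (δ : ℝ), 0 < δ → δ ≤ 1 / 2 →
    HasCubes δ k (Emb δ k) ∧ (Emb δ k : ℝ) ≤ Real.exp (C * k) * Real.log (1 / δ) := by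
  refine ⟨8, by norm_num, fun k δ hδ hδ2 => ?_⟩
  have hlog2 : (0.69 : ℝ) < Real.log 2 := by
    have := Real.log_two_gt_d9
    linarith
  have hlogδ : Real.log 2 ≤ Real.log (1 / δ) := by
    apply Real.log_le_log (by norm_num)
    rw [le_div_iff₀ hδ]
    linarith
  suffices h : ∃ N : ℕ, HasCubes δ k N ∧ (N : ℝ) ≤ Real.exp (8 * k) * Real.log (1 / δ) by
    obtain ⟨N, hN, hN'⟩ := h
    refine ⟨Nat.sInf_mem (s := {N | HasCubes δ k N}) ⟨N, hN⟩, le_trans ?_ hN'⟩
    exact_mod_cast Nat.sInf_le (s := {N | HasCubes δ k N}) hN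
  rcases Nat.eq_zero_or_pos k with rfl | hk
  · refine ⟨0, ?_, ?_⟩
    · intro D hD
      have hpos : 0 < D.card := by
        have : (0 : ℝ) < D.card := lt_of_lt_of_le (by positivity) hD
        exact_mod_cast this
      obtain ⟨a, ha⟩ := Finset.card_pos.1 hpos
      refine ⟨fun _ => a, ⟨1, one_pos, fun x y => ?_⟩, fun _ => ha⟩
      have : x = y := Subsingleton.elim _ _
      rw [this]
      simp
    · have : (0 : ℝ) ≤ Real.log (1 / δ) := by linarith
      simp only [Nat.cast_zero, mul_zero, Real.exp_zero, one_mul]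
      exact this
  · -- positive `k`
    have hlog2δ : Real.log (2 / δ) = Real.log 2 + Real.log (1 / δ) := by
      rw [← Real.log_mul (by norm_num) (by positivity)]
      congr 1
      ring
    have hL : 0 < Real.log (2 / δ) := by rw [hlog2δ]; linarith
    set m : ℕ := ⌈(2 : ℝ) ^ k * Real.log (2 / δ)⌉₊ with hm
    have hmpos : 0 < m := Nat.ceil_pos.2 (by positivity)
    have hmge : (2 : ℝ) ^ k * Real.log (2 / δ) ≤ m := Nat.le_ceil _
    have hmle : (m : ℝ) < (2 : ℝ) ^ k * Real.log (2 / δ) + 1 := Nat.ceil_lt_add_one (by positivity)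
    refine ⟨(36 + k) * (2 * m), ?_, ?_⟩
    · refine hasCubes_of hδ (by linarith) (even_two_mul m) (by omega) ?_
      have h1 : Real.log ((1 / 2 : ℝ) ^ (2 * m)) ≤ Real.log ((δ / 2) ^ (2 ^ k)) := by
        rw [Real.log_pow, Real.log_pow]
        have e1 : Real.log (1 / 2 : ℝ) = -Real.log 2 := by
          rw [one_div, Real.log_inv]
        have e2 : Real.log (δ / 2) = -Real.log (2 / δ) := by
          rw [← Real.log_inv]
          congr 1
          rw [inv_div]
        rw [e1, e2]
        push_cast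
        have : (0 : ℝ) ≤ (m : ℝ) := by positivity
        nlinarith
      exact (Real.log_le_log_iff (by positivity) (by positivity)).1 h1
    · have hk1 : (1 : ℝ) ≤ k := by exact_mod_cast hk
      push_cast
      set Lg := Real.log (1 / δ) with hLg
      have hLgpos : 0 < Lg := by linarith
      have h2k : (1 : ℝ) ≤ (2 : ℝ) ^ k := one_le_pow₀ (by norm_num)
      have h1 : (m : ℝ) ≤ 4 * (2 : ℝ) ^ k * Lg := by
        have e1 : Real.log (2 / δ) ≤ 2 * Lg := by rw [hlog2δ]; linarith
        have e2 : (1 : ℝ) ≤ 2 * Lg := by linarith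
        have e3 : (2 : ℝ) ^ k * Real.log (2 / δ) ≤ (2 : ℝ) ^ k * (2 * Lg) := by gcongr
        have e4 : (1 : ℝ) ≤ (2 : ℝ) ^ k * (2 * Lg) := by nlinarith
        linarith
      have h2 : (36 + (k : ℝ)) ≤ 37 * Real.exp k := by
        have := Real.add_one_le_exp (k : ℝ)
        nlinarith
      have h3 : (2 : ℝ) ^ k ≤ Real.exp k := by
        have h4 : (2 : ℝ) ≤ Real.exp 1 := by
          have := Real.exp_one_gt_d9
          linarith
        calc (2 : ℝ) ^ k ≤ (Real.exp 1) ^ k := by gcongr
          _ = Real.exp k := by rw [← Real.exp_nat_mul]; ring_nf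
      have h5 : (296 : ℝ) ≤ Real.exp (6 * k) := by
        have h6 : (2.7 : ℝ) ≤ Real.exp 1 := by
          have := Real.exp_one_gt_d9
          linarith
        have h7 : (2.7 : ℝ) ^ 6 ≤ (Real.exp 1) ^ 6 := by gcongr
        have h8 : (Real.exp 1) ^ 6 = Real.exp 6 := by
          rw [← Real.exp_nat_mul]; norm_num
        have h9 : Real.exp 6 ≤ Real.exp (6 * k) := Real.exp_le_exp.2 (by linarith)
        rw [h8] at h7
        norm_num at h7
        linarith
      have h10 : Real.exp (8 * k) = Real.exp (6 * k) * (Real.exp k * Real.exp k) := by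
        rw [← Real.exp_add, ← Real.exp_add]
        congr 1
        ring
      rw [h10]
      have hek : 0 < Real.exp (k : ℝ) := Real.exp_pos _
      calc (36 + (k : ℝ)) * (2 * m) ≤ (37 * Real.exp k) * (2 * (4 * Real.exp k * Lg)) := by
            have : (m : ℝ) ≤ 4 * Real.exp k * Lg := by
              refine h1.trans ?_
              gcongr
            gcongr
        _ = 296 * (Real.exp k * Real.exp k) * Lg := by ring
        _ ≤ Real.exp (6 * k) * (Real.exp k * Real.exp k) * Lg := by gcongr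

end Pool.Agent.Results.MP_c810be_co.ExponentialBound
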